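import Pool.Agent.Y842.QY.FinW
import Pool.Agent.Y842.EL.Dens
import Pool.Agent.H373R2.T7.SupLiou

set_option autoImplicit false

/-! The pair of a value of the Liouville function and of a multiplicative function: exponential sums, uniformly in the
phase and over the partial sums, at almost all scales. -/

namespace Pool.Agent.E8helper80.MP
open Finset
open Pool.Agent.Y842.QY (Lc csg mB excW)
open Pool.Agent.Y958.U (LZ)
open Pool.Agent.Y842.EL (LZ_pull)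
open Pool.Agent.H373R2.T7 (liR sup_liou)

/-- the pair -/
noncomputable def pr {k : ℕ} (χ : ℕ → Fin k) (A : Multiset (Fin k × ℕ) → ℂ) (g : ℕ → ℂ) (a c n : ℕ) : ℂ :=
  if 1 ≤ n then (-1 : ℂ) ^ ArithmeticFunction.cardFactors (n + a) * (A (csg χ (n + c)) * g (n + c)) else 0

lemma pr_norm {k : ℕ} (χ : ℕ → Fin k) (A : Multiset (Fin k × ℕ) → ℂ) (hA : ∀ s, ‖A s‖ ≤ 1) (g : ℕ → ℂ)
    (hg : ∀ n, 1 ≤ n → ‖g n‖ ≤ 1) (a c n : ℕ) : ‖pr χ A g a c n‖ ≤ 1 := by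
  unfold pr
  split_ifs with h
  · rw [norm_mul, norm_mul, norm_pow, norm_neg, norm_one, one_pow, one_mul]
    exact mul_le_one₀ (hA _) (norm_nonneg _) (hg _ (by omega))
  · simp

lemma mean_small (ε : ℝ) (hε : 0 < ε) : ∃ N₀ : ℕ, ∀ N : ℕ, N₀ ≤ N → ‖mB (fun l => (-1 : ℂ) ^ l) N‖ ≤ ε := by
  obtain ⟨N₁, h1⟩ := sup_liou 1
  obtain ⟨N₂, h2⟩ := exists_nat_ge (Real.exp (1 / ε))
  refine ⟨N₁ + N₂ + 1, fun N hN => ?_⟩
  have hN0 : (0 : ℝ) < N := by exact_mod_cast (by omega : 0 < N)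
  have h3 := h1 N (by omega) 0
  have h4 : ∑ n ∈ Icc 1 N, liR n * Pool.Agent.H807R2.Dav.ee ((n : ℝ) * 0) =
      ∑ n ∈ Icc 1 N, (-1 : ℂ) ^ ArithmeticFunction.cardFactors n := by
    apply sum_congr rfl
    intro n _
    rw [mul_zero, Pool.Agent.H807R2.Dav.ee_zero, mul_one]
    rfl
  rw [h4, pow_one] at h3
  have hlog : 1 / ε ≤ Real.log N := by
    rw [Real.le_log_iff_exp_le hN0]
    exact h2.trans (by exact_mod_cast (by omega : N₂ ≤ N))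
  have hlog0 : 0 < Real.log N := lt_of_lt_of_le (by positivity) hlog
  unfold mB
  rw [norm_div, Complex.norm_natCast, div_le_iff₀ hN0]
  refine h3.trans ?_
  rw [div_le_iff₀ hlog0]
  have h5 : 1 ≤ ε * Real.log N := by
    rw [div_le_iff₀ hε] at hlog
    linarith
  nlinarith

/-- **pairs** -/
theorem pair_scales {k : ℕ} (χ : ℕ → Fin k) (A : Multiset (Fin k × ℕ) → ℂ) (hA : ∀ s, ‖A s‖ ≤ 1) (g : ℕ → ℂ)
    (hg : ∀ n, 1 ≤ n → ‖g n‖ ≤ 1)
    (hm : ∀ m n : ℕ, 1 ≤ m → 1 ≤ n → Nat.Coprime m n → g (m * n) = g m * g n) :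
    ∃ E : Set ℕ, LZ E ∧ ∀ a c : ℕ, a ≠ c → ∀ ε : ℝ, 0 < ε → ∃ N₀ : ℕ, ∀ N : ℕ, N₀ ≤ N → N ∉ E →
      ∀ (β : ℝ) (y : ℕ), y ≤ 4 * N →
        ‖∑ n ∈ Icc 1 y, pr χ A g a c n * Pool.Agent.H807R2.Dav.ee ((n : ℝ) * β)‖ ≤ ε * N := by
  obtain ⟨E₀, hE₀, h⟩ := excW χ A hA g hg hm (fun l => (-1 : ℂ) ^ l) (fun l => by
    rw [norm_pow, norm_neg, norm_one, one_pow])
  refine ⟨{N | 4 * N + 0 ∈ E₀}, LZ_pull hE₀ 4 0 (by norm_num), fun a c hac ε hε => ?_⟩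
  obtain ⟨N₁, h1⟩ := h a c hac (ε / 8) (by positivity)
  obtain ⟨N₂, h2⟩ := mean_small (ε / 8) (by positivity)
  refine ⟨N₁ + N₂, fun N hN hNE β y hy => ?_⟩
  have hNr : (0 : ℝ) ≤ N := Nat.cast_nonneg _
  have h3 := h1 (4 * N) (by omega) (fun h4 => hNE (by simpa using h4)) β y hy
  have h4 := h2 (4 * N) (by omega)
  obtain ⟨m, hm'⟩ : ∃ m, m = mB (fun l => (-1 : ℂ) ^ l) (4 * N) := ⟨_, rfl⟩
  rw [← hm'] at h4
  have h5 : ∑ n ∈ Icc 1 y, pr χ A g a c n * Pool.Agent.H807R2.Dav.ee ((n : ℝ) * β) =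
      Lc (fun n => A (csg χ (n + c)) * g (n + c) * Pool.Agent.Helper602.MK.ee (β * n)) a (4 * N) y
        (fun l => (-1 : ℂ) ^ l) +
      m * ∑ n ∈ Icc 1 y, A (csg χ (n + c)) * g (n + c) * Pool.Agent.Helper602.MK.ee (β * n) := by
    unfold Lc
    rw [mul_sum, ← sum_add_distrib]
    apply sum_congr rfl
    intro n hn
    rw [mem_Icc] at hn
    rw [← hm']
    unfold pr
    beta_reduce
    rw [if_pos hn.1, Pool.Agent.H373R2.T7.mk_ee, mul_comm (n : ℝ) β]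
    ring
  rw [h5]
  refine (norm_add_le _ _).trans ?_
  have h6 : ‖m * ∑ n ∈ Icc 1 y, A (csg χ (n + c)) * g (n + c) * Pool.Agent.Helper602.MK.ee (β * n)‖ ≤
      ε / 8 * y := by
    rw [norm_mul]
    apply mul_le_mul h4 _ (norm_nonneg _) (by positivity)
    refine (norm_sum_le _ _).trans ?_
    refine (sum_le_sum (g := fun _ => (1 : ℝ)) ?_).trans (by simp)
    intro n hn
    rw [mem_Icc] at hn
    rw [norm_mul, norm_mul, Pool.Agent.H373R2.T7.mk_ee, Pool.Agent.H807R2.Dav.norm_ee, mul_one]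
    exact mul_le_one₀ (hA _) (norm_nonneg _) (hg _ (by omega))
  have h7 : (y : ℝ) ≤ 4 * N := by exact_mod_cast hy
  have h8 : ε / 8 * y ≤ ε / 8 * (4 * N) := mul_le_mul_of_nonneg_left h7 (by positivity)
  push_cast at h3
  linarith

end Pool.Agent.E8helper80.MP
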