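import Pool.Agent.H373R2.T7.BilE

set_option autoImplicit false

/-! Almost all shifts, long windows: bounded weights. -/

namespace Pool.Agent.E8helper80.MP
open Finset
open Pool.Agent.H807R2.Dav (ee)
open Pool.Agent.H373R2.T7

lemma energy_one (N B : ℕ) : energy 1 N (fun m => (m : ℤ) + B) ≤ N := by
  unfold energy
  have h1 : (((Fintype.piFinset fun _ : Fin 1 => Icc 1 N) ×ˢ (Fintype.piFinset fun _ : Fin 1 => Icc 1 N)).filter
    (fun q : (Fin 1 → ℕ) × (Fin 1 → ℕ) => ∑ i, (((q.1 i : ℕ) : ℤ) + B) = ∑ i, (((q.2 i : ℕ) : ℤ) + B))).card ≤ (Icc 1 N).card := by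
    apply card_le_card_of_injOn (fun q => q.1 0)
    · intro q hq
      rw [mem_coe, mem_filter, mem_product, Fintype.mem_piFinset] at hq
      exact hq.1.1 0
    · intro q hq q' hq' h
      rw [mem_coe, mem_filter] at hq hq'
      have e1 := hq.2
      have e2 := hq'.2
      simp only [Fin.sum_univ_one] at e1 e2
      simp only at h
      have e3 : q.1 = q'.1 := by
        funext i
        rw [Subsingleton.elim i 0]
        exact h
      have e4 : q.2 = q'.2 := by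
        funext i
        rw [Subsingleton.elim i 0]
        have : (q.2 0 : ℤ) = q'.2 0 := by
          have : (q.1 0 : ℤ) = q'.1 0 := by exact_mod_cast h
          linarith
        exact_mod_cast this
      exact Prod.ext e3 e4
  simpa using h1

/-- the first moment -/
lemma l1_0 (G : ℕ → ℂ) (hG : ∀ n, ‖G n‖ ≤ 1) (N : ℕ) (hN : 1 ≤ N) (δ η : ℝ) (hη : 0 < η)
    (hδ : ∀ β : ℝ, ‖∑ n ∈ Icc 1 (4 * N), G n * ee ((n : ℝ) * β)‖ ≤ δ * N)
    (B : ℕ) (hB : B ≤ N) (b : ℕ → ℂ) (hb : ∀ n, ‖b n‖ ≤ 1) (A : ℕ) (hA : A ≤ N) :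
    ∑ t ∈ Icc 1 N, ‖∑ n ∈ Icc 1 A, b n * G (n + t + B)‖ ≤ (9 * δ / η ^ 2 + 2 * η) * N * N := by
  have hN0 : (0 : ℝ) < N := by exact_mod_cast hN
  obtain ⟨M, hM⟩ : ∃ M : ℕ, M = 9 * N := ⟨_, rfl⟩
  have hM1 : 1 ≤ M := by omega
  have hMr : (M : ℝ) = 9 * N := by rw [hM]; push_cast; ring
  have hδ0 : 0 ≤ δ * N := (norm_nonneg _).trans (hδ 0)
  have hδ1 : 0 ≤ δ := by
    by_contra h
    push Not at h
    have : δ * N < 0 := mul_neg_of_neg_of_pos h hN0
    linarith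
  have hmomE := moment_energy 1 N (fun m => (m : ℤ) + B) M (2 * N) hM1 (fun m hm => by
    rw [mem_Icc] at hm
    rw [abs_of_nonneg (by positivity)]
    push_cast
    omega) (by omega)
  have hmom : ∑ t ∈ range M, (‖∑ m ∈ Icc 1 N, ee ((t : ℝ) * ((((m : ℤ) + B : ℤ) : ℝ) / M))‖ / N) ^ (2 * 1) ≤ 9 := by
    have h2 : ∑ t ∈ range M, (‖∑ m ∈ Icc 1 N, ee ((t : ℝ) * ((((m : ℤ) + B : ℤ) : ℝ) / M))‖ / N) ^ (2 * 1) =
        (M * energy 1 N (fun m => (m : ℤ) + B)) / (N : ℝ) ^ (2 * 1) := by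
      rw [← hmomE, sum_div]
      exact sum_congr rfl fun t _ => div_pow _ _ _
    rw [h2, div_le_iff₀ (by positivity), hMr]
    have h3 : (energy 1 N (fun m => (m : ℤ) + B) : ℝ) ≤ N := by exact_mod_cast energy_one N B
    calc 9 * (N : ℝ) * energy 1 N (fun m => (m : ℤ) + B) ≤ 9 * N * N := mul_le_mul_of_nonneg_left h3 (by positivity)
      _ = _ := by ring
  obtain ⟨S, hS⟩ : ∃ S : ℕ → ℂ, S = fun t => ∑ n ∈ Icc 1 A, b n * G (n + t + B) := ⟨_, rfl⟩
  obtain ⟨c, hc⟩ : ∃ c : ℕ → ℂ, c = fun m => (starRingEnd ℂ) (S m) / ‖S m‖ := ⟨_, rfl⟩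
  have hc1 : ∀ m, ‖c m‖ ≤ 1 := by
    intro m
    rw [hc]
    simp only [norm_div, RCLike.norm_conj, Complex.norm_real, norm_norm]
    exact div_self_le_one _
  have key := bil_main A (4 * N) N M hM1 G b c (fun m => (m : ℤ) + B) (δ * N) η 1 9 ((4 * N : ℕ) : ℝ) (by
      intro a ha m hm n hn
      rw [mem_Icc] at ha hm hn
      rw [abs_lt]
      constructor <;> omega) (by omega) (by omega) hN hδ hb hc1 hmom (by
      have h4 : ∀ n ∈ Icc 1 (4 * N), ‖G n‖ ^ 2 ≤ 1 := fun n _ => pow_le_one₀ (norm_nonneg _) (hG n)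
      refine (sum_le_sum h4).trans ?_
      rw [sum_const, Nat.card_Icc, nsmul_eq_mul]
      simp) hη
  have heq : ∑ a ∈ Icc 1 A, ∑ m ∈ Icc 1 N, b a * c m * fz G (4 * N) (a + ((m : ℤ) + B)) =
      ((∑ m ∈ Icc 1 N, ‖S m‖ : ℝ) : ℂ) := by
    rw [sum_comm]
    push_cast
    apply sum_congr rfl
    intro m hm
    have e1 : ∑ a ∈ Icc 1 A, b a * c m * fz G (4 * N) (a + ((m : ℤ) + B)) = c m * S m := by
      rw [hS, mul_sum]
      apply sum_congr rfl
      intro a ha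
      rw [mem_Icc] at ha hm
      unfold fz
      rw [if_pos (by push_cast; omega)]
      have e2 : ((a : ℤ) + ((m : ℤ) + B)).toNat = a + m + B := by omega
      rw [e2]
      ring
    rw [e1, hc]
    simp only
    by_cases h0 : ‖S m‖ = 0
    · rw [norm_eq_zero.1 h0]; simp
    · have h0' : ((‖S m‖ : ℝ) : ℂ) ≠ 0 := by exact_mod_cast h0
      rw [div_mul_eq_mul_div, mul_comm, Complex.mul_conj', pow_two]
      field_simp
  rw [heq, Complex.norm_real, Real.norm_of_nonneg (sum_nonneg fun _ _ => norm_nonneg _)] at key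
  rw [hS] at key
  refine key.trans ?_
  have hAr : (A : ℝ) ≤ N := by exact_mod_cast hA
  have t1 : 9 / η ^ (2 * 1) * (δ * N) * A * N / M ≤ 9 * δ / η ^ 2 * N * N := by
    rw [div_le_iff₀ (by rw [hMr]; positivity), hMr]
    have h6 : 0 ≤ 9 * δ / η ^ 2 * N * N := by positivity
    calc 9 / η ^ (2 * 1) * (δ * N) * A * N = (9 * δ / η ^ 2 * N * N) * A := by ring
      _ ≤ (9 * δ / η ^ 2 * N * N) * (9 * N) := mul_le_mul_of_nonneg_left (by linarith) h6
  have t2 : η * N * Real.sqrt (((4 * N : ℕ) : ℝ) * A) ≤ 2 * η * N * N := by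
    have h4 : Real.sqrt (((4 * N : ℕ) : ℝ) * A) ≤ 2 * N := by
      rw [Real.sqrt_le_left (by positivity)]
      push_cast
      nlinarith
    calc η * N * Real.sqrt (((4 * N : ℕ) : ℝ) * A) ≤ η * N * (2 * N) := mul_le_mul_of_nonneg_left h4 (by positivity)
      _ = _ := by ring
  calc _ ≤ 9 * δ / η ^ 2 * N * N + 2 * η * N * N := add_le_add t1 t2
    _ = _ := by ring

open Classical in
/-- almost all shifts, bounded weights -/
theorem nat0 (G : ℕ → ℂ) (hG : ∀ n, ‖G n‖ ≤ 1) (S : Set ℕ)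
    (hS : ∀ ε : ℝ, 0 < ε → ∃ N₀ : ℕ, ∀ N : ℕ, N₀ ≤ N → N ∈ S → ∀ (β : ℝ) (y : ℕ), y ≤ 4 * N →
      ‖∑ n ∈ Icc 1 y, G n * ee ((n : ℝ) * β)‖ ≤ ε * N) (ε : ℝ) (hε : 0 < ε) :
    ∃ N₀ : ℕ, ∀ N : ℕ, N₀ ≤ N → N ∈ S → ∀ B : ℕ, B ≤ N → ∀ b : ℕ → ℂ, (∀ n, ‖b n‖ ≤ 1) →
      (((Icc 1 N).filter (fun t : ℕ => ∃ X : ℕ, X ≤ N ∧ ε * N < ‖∑ n ∈ Icc 1 X, b n * G (n + t + B)‖)).card : ℝ) ≤
        ε * N := by
  obtain ⟨J, hJ⟩ := exists_nat_gt (4 / ε)
  have hJ0 : (0 : ℝ) < J := lt_trans (by positivity) hJ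
  have hJ1 : 1 ≤ J := by exact_mod_cast hJ0
  -- the parameters
  obtain ⟨η, hη⟩ : ∃ η : ℝ, η = ε ^ 2 / (16 * (J + 1)) := ⟨_, rfl⟩
  have hη0 : 0 < η := by rw [hη]; positivity
  obtain ⟨δ, hδ⟩ : ∃ δ : ℝ, δ = η ^ 3 / 9 := ⟨_, rfl⟩
  have hδ0 : 0 < δ := by rw [hδ]; positivity
  obtain ⟨N₁, h1⟩ := hS δ hδ0
  refine ⟨N₁ + J + 1, fun N hN hNS B hB b hb => ?_⟩
  have hN1 : 1 ≤ N := by omega
  have hN0 : (0 : ℝ) < N := by exact_mod_cast hN1
  have hmom : ∀ A : ℕ, A ≤ N → ∑ t ∈ Icc 1 N, ‖∑ n ∈ Icc 1 A, b n * G (n + t + B)‖ ≤ 3 * η * N * N := by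
    intro A hA
    refine (l1_0 G hG N hN1 δ η hη0 (fun β => h1 N (by omega) hNS β (4 * N) le_rfl) B hB b hb A hA).trans (le_of_eq ?_)
    rw [hδ]
    field_simp
    ring
  obtain ⟨Y, hY⟩ : ∃ Y : ℕ, Y = N / J := ⟨_, rfl⟩
  have hY1 : 1 ≤ Y := by
    rw [hY]
    exact Nat.div_pos (by omega) (by omega)
  have hYr : (Y : ℝ) ≤ N / J := by rw [hY]; exact Nat.cast_div_le
  have hYN : (Y : ℝ) < ε / 4 * N := by
    refine lt_of_le_of_lt hYr ?_
    rw [div_lt_iff₀ hJ0]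
    rw [div_lt_iff₀ hε] at hJ
    nlinarith
  -- the bad shifts at a grid point
  have hgrid : ∀ j ∈ range (2 * J + 1), (((Icc 1 N).filter (fun t : ℕ => ε / 2 * N <
      ‖∑ n ∈ Icc 1 (min (j * Y) N), b n * G (n + t + B)‖)).card : ℝ) ≤ 6 * η / ε * N := by
    intro j _
    have h2 := hmom (min (j * Y) N) (min_le_right _ _)
    have h3 : ∑ t ∈ (Icc 1 N).filter (fun t : ℕ => ε / 2 * N < ‖∑ n ∈ Icc 1 (min (j * Y) N), b n * G (n + t + B)‖), (ε / 2 * N) ≤
        ∑ t ∈ Icc 1 N, ‖∑ n ∈ Icc 1 (min (j * Y) N), b n * G (n + t + B)‖ := by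
      refine le_trans (sum_le_sum (g := fun t => ‖∑ n ∈ Icc 1 (min (j * Y) N), b n * G (n + t + B)‖) ?_)
        (sum_le_sum_of_subset_of_nonneg (filter_subset _ _) (fun _ _ _ => norm_nonneg _))
      intro t ht
      exact (mem_filter.1 ht).2.le
    rw [sum_const, nsmul_eq_mul] at h3
    have h4 := h3.trans h2
    rw [← le_div_iff₀ (by positivity)] at h4
    refine h4.trans (le_of_eq ?_)
    field_simp
    ring
  have hsub : (Icc 1 N).filter (fun t : ℕ => ∃ X : ℕ, X ≤ N ∧ ε * N < ‖∑ n ∈ Icc 1 X, b n * G (n + t + B)‖) ⊆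
      (range (2 * J + 1)).biUnion (fun j => (Icc 1 N).filter (fun t : ℕ => ε / 2 * N <
        ‖∑ n ∈ Icc 1 (min (j * Y) N), b n * G (n + t + B)‖)) := by
    intro t ht
    rw [mem_filter] at ht
    obtain ⟨ht1, X, hX, hlt⟩ := ht
    rw [mem_biUnion]
    refine ⟨X / Y, ?_, ?_⟩
    · rw [mem_range]
      have h2 : X / Y ≤ N / Y := Nat.div_le_div_right hX
      have h3 : N / Y < 2 * J + 1 := by
        rw [Nat.div_lt_iff_lt_mul (by omega)]
        have h4 : N < J * (Y + 1) := by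
          rw [hY]
          have := Nat.lt_mul_div_succ N (show 0 < J by omega)
          exact this
        nlinarith
      omega
    · rw [mem_filter]
      refine ⟨ht1, ?_⟩
      have h2 : X / Y * Y ≤ X := Nat.div_mul_le_self X Y
      have h3 : X < X / Y * Y + Y := by
        have := Nat.lt_div_mul_add (a := X) (show 0 < Y by omega)
        exact this
      rw [min_eq_left (h2.trans hX)]
      have hsplit : Icc 1 X = Icc 1 (X / Y * Y) ∪ Ioc (X / Y * Y) X := by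
        ext n
        rw [mem_union, mem_Icc, mem_Icc, mem_Ioc]
        omega
      have hdisj : Disjoint (Icc 1 (X / Y * Y)) (Ioc (X / Y * Y) X) := by
        rw [disjoint_left]
        intro n hn hn'
        rw [mem_Icc] at hn
        rw [mem_Ioc] at hn'
        omega
      rw [hsplit, sum_union hdisj] at hlt
      have h4 : ‖∑ n ∈ Ioc (X / Y * Y) X, b n * G (n + t + B)‖ ≤ Y := by
        refine (norm_sum_le _ _).trans ?_
        have h5 : ∀ n ∈ Ioc (X / Y * Y) X, ‖b n * G (n + t + B)‖ ≤ 1 := by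
          intro n _
          rw [norm_mul]
          exact mul_le_one₀ (hb n) (norm_nonneg _) (hG _)
        refine (sum_le_sum h5).trans ?_
        rw [sum_const, Nat.card_Ioc, nsmul_eq_mul, mul_one]
        exact_mod_cast (by omega : X - X / Y * Y ≤ Y)
      have h6 := norm_add_le (∑ n ∈ Icc 1 (X / Y * Y), b n * G (n + t + B)) (∑ n ∈ Ioc (X / Y * Y) X, b n * G (n + t + B))
      nlinarith
  refine (Nat.cast_le.2 (card_le_card hsub)).trans ?_
  refine (Nat.cast_le.2 card_biUnion_le).trans ?_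
  push_cast
  refine (sum_le_sum hgrid).trans ?_
  rw [sum_const, card_range, nsmul_eq_mul, hη]
  push_cast
  have h5 : (2 * (J : ℝ) + 1) * (6 * (ε ^ 2 / (16 * (J + 1))) / ε * N) = ((2 * J + 1) * 6 / (16 * (J + 1))) * (ε * N) := by
    field_simp
  rw [h5]
  have h6 : (2 * (J : ℝ) + 1) * 6 / (16 * (J + 1)) ≤ 1 := by
    rw [div_le_one (by positivity)]
    linarith
  calc _ ≤ 1 * (ε * N) := mul_le_mul_of_nonneg_right h6 (by positivity)
    _ = _ := one_mul _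

end Pool.Agent.E8helper80.MP
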