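import Pool.Agent.E8helper80.MP.NatG
import Pool.Agent.E8helper80.MP.Nat0

set_option autoImplicit false

/-! Almost all shifts, long windows: any number of fixed shifts. -/

namespace Pool.Agent.E8helper80.MP
open Finset
open Pool.Agent.H807R2.Dav (ee)

open Classical in
/-- almost all shifts: `f ≥ 0` fixed and `s ≥ 0` moving shifts of the von Mangoldt function, and one moving shift of `G` -/
theorem natA (G : ℕ → ℂ) (hG : ∀ n, ‖G n‖ ≤ 1) (S : Set ℕ)
    (hS : ∀ ε : ℝ, 0 < ε → ∃ N₀ : ℕ, ∀ N : ℕ, N₀ ≤ N → N ∈ S → ∀ (β : ℝ) (y : ℕ), y ≤ 4 * N →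
      ‖∑ n ∈ Icc 1 y, G n * ee ((n : ℝ) * β)‖ ≤ ε * N)
    (f s : ℕ) (D : ℕ) (ε : ℝ) (hε : 0 < ε) :
    ∃ N₀ : ℕ, ∀ N : ℕ, N₀ ≤ N → N ∈ S → ∀ a : Fin f → ℕ,
      Function.Injective a → (∀ i, a i ≤ N) → (∀ i l, a i ≤ a l + D) → ∀ B : ℕ, B ≤ N →
      ∀ b : (Fin s → ℕ) → ℕ → ℂ, (∀ x n, ‖b x n‖ ≤ 1) →
      ((((Fintype.piFinset fun _ : Fin s => Icc 1 N) ×ˢ (Icc 1 N)).filter (fun x : (Fin s → ℕ) × ℕ =>
        ∃ X : ℕ, X ≤ N ∧ ε * N < ‖∑ n ∈ Icc 1 X, b x.1 n *
          (((∏ i, ArithmeticFunction.vonMangoldt (n + a i)) *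
            ∏ j, ArithmeticFunction.vonMangoldt (n + x.1 j) : ℝ) : ℂ) * G (n + x.2 + B)‖)).card : ℝ) ≤
        ε * (N : ℝ) ^ (s + 1) := by
  rcases Nat.eq_zero_or_pos f with hf | hf
  swap
  · exact natG G hG S hS f s hf D ε hε
  subst hf
  rcases s with _ | s
  · obtain ⟨N₀, h2⟩ := nat0 G hG S hS ε hε
    refine ⟨N₀, fun N hN hNS a _ _ _ B hB b hb => ?_⟩
    have h3 := h2 N hN hNS B hB (b Fin.elim0) (hb _)
    rw [zero_add, pow_one]
    refine le_trans ?_ h3
    apply Nat.cast_le.2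
    apply card_le_card_of_injOn (fun x => x.2)
    · intro x hx
      rw [mem_coe, mem_filter, mem_product] at hx
      obtain ⟨⟨_, hx2⟩, X, hX, hlt⟩ := hx
      rw [mem_coe, mem_filter]
      refine ⟨hx2, X, hX, lt_of_lt_of_eq hlt ?_⟩
      congr 1
      apply sum_congr rfl
      intro n _
      rw [univ_eq_empty, prod_empty, prod_empty, mul_one, Complex.ofReal_one, mul_one, Subsingleton.elim x.1 Fin.elim0]
    · intro x _ y _ hxy
      exact Prod.ext (Subsingleton.elim _ _) hxy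
  · obtain ⟨N₀, h2⟩ := natG G hG S hS 1 s le_rfl 0 ε hε
    refine ⟨N₀, fun N hN hNS a _ _ _ B hB b hb => ?_⟩
    have h3 : ∀ h ∈ Icc 1 N, _ := fun h hh => h2 N hN hNS (fun _ => h) (fun i j _ => Subsingleton.elim i j)
      (fun _ => (mem_Icc.1 hh).2) (fun _ _ => le_rfl) B hB (fun x n => b (Fin.cons h x) n) (fun x n => hb _ n)
    obtain ⟨T, hT⟩ : ∃ T, T = (((Fintype.piFinset fun _ : Fin (s + 1) => Icc 1 N) ×ˢ (Icc 1 N)).filter (fun x : (Fin (s + 1) → ℕ) × ℕ =>
        ∃ X : ℕ, X ≤ N ∧ ε * N < ‖∑ n ∈ Icc 1 X, b x.1 n *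
          (((∏ i, ArithmeticFunction.vonMangoldt (n + a i)) *
            ∏ j, ArithmeticFunction.vonMangoldt (n + x.1 j) : ℝ) : ℂ) * G (n + x.2 + B)‖)) := ⟨_, rfl⟩
    rw [← hT]
    have h4 : T.card = ∑ h ∈ Icc 1 N, (T.filter (fun x => x.1 0 = h)).card := by
      apply card_eq_sum_card_fiberwise
      intro x hx
      rw [mem_coe, hT, mem_filter, mem_product, Fintype.mem_piFinset] at hx
      exact hx.1.1 0
    rw [h4]
    push_cast
    have h5 : ∀ h ∈ Icc 1 N, ((T.filter (fun x => x.1 0 = h)).card : ℝ) ≤ ε * (N : ℝ) ^ (s + 1) := by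
      intro h hh
      refine le_trans ?_ (h3 h hh)
      apply Nat.cast_le.2
      apply card_le_card_of_injOn (fun x => (fun i => x.1 (Fin.succ i), x.2))
      · intro x hx
        rw [mem_coe, mem_filter, hT, mem_filter, mem_product, Fintype.mem_piFinset] at hx
        obtain ⟨⟨⟨hx1, hx2⟩, X, hX, hlt⟩, hx0⟩ := hx
        rw [mem_coe, mem_filter, mem_product, Fintype.mem_piFinset]
        refine ⟨⟨fun i => hx1 _, hx2⟩, X, hX, lt_of_lt_of_eq hlt ?_⟩
        have e1 : x.1 = Fin.cons h (fun i => x.1 (Fin.succ i)) := by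
          funext i
          refine Fin.cases ?_ (fun j => ?_) i
          · rw [Fin.cons_zero, hx0]
          · rw [Fin.cons_succ]
        congr 1
        apply sum_congr rfl
        intro n _
        beta_reduce
        rw [← e1]
        congr 2
        rw [univ_eq_empty, prod_empty, one_mul, Fin.prod_univ_succ, hx0, Fin.prod_univ_one]
      · intro x hx y hy hxy
        rw [mem_coe, mem_filter] at hx hy
        simp only [Prod.mk.injEq] at hxy
        refine Prod.ext ?_ hxy.2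
        funext i
        refine Fin.cases ?_ (fun j => ?_) i
        · rw [hx.2, hy.2]
        · exact congrFun hxy.1 j
    refine (sum_le_sum h5).trans (le_of_eq ?_)
    rw [sum_const, Nat.card_Icc, nsmul_eq_mul, Nat.add_sub_cancel]
    ring

end Pool.Agent.E8helper80.MP
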