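import Pool.Agent.Y842.JC.Main

set_option autoImplicit false

/-! Windows of an exponential sum from its partial sums. -/

namespace Pool.Agent.E8helper80.MP
open Finset
open Pool.Agent.Y842.JC
open Pool.Agent.H807R2.Dav (ee norm_ee ee_add ee_int ee_pow ee_zero)
open Pool.Agent.H373R2.T7 (exI)

lemma Ioc_nat (G : ℕ → ℂ) (β : ℝ) (x y : ℕ) (hxy : x ≤ y) :
    ∑ m ∈ Ioc (x : ℤ) y, exI G m * ee ((m : ℝ) * β) =
      ∑ n ∈ Icc 1 y, G n * ee ((n : ℝ) * β) - ∑ n ∈ Icc 1 x, G n * ee ((n : ℝ) * β) := by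
  have h1 : ∑ m ∈ Ioc (x : ℤ) y, exI G m * ee ((m : ℝ) * β) = ∑ n ∈ Ioc x y, G n * ee ((n : ℝ) * β) := by
    symm
    apply sum_nbij' (fun n : ℕ => (n : ℤ)) (fun m : ℤ => m.toNat)
    · intro n hn
      rw [mem_Ioc] at hn ⊢
      omega
    · intro m hm
      rw [mem_Ioc] at hm ⊢
      omega
    · intro n _
      exact Int.toNat_natCast n
    · intro m hm
      rw [mem_Ioc] at hm
      exact Int.toNat_of_nonneg (by omega)
    · intro n hn
      rw [mem_Ioc] at hn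
      unfold exI
      rw [if_pos (by omega)]
      simp
  rw [h1, eq_sub_iff_add_eq]
  have h2 : Icc 1 y = Icc 1 x ∪ Ioc x y := by
    ext n
    rw [mem_union, mem_Icc, mem_Icc, mem_Ioc]
    omega
  rw [h2, sum_union, add_comm]
  rw [disjoint_left]
  intro n hn hn'
  rw [mem_Icc] at hn
  rw [mem_Ioc] at hn'
  omega

/-- windows of integers, from the partial sums over the positive integers -/
lemma win_le (G : ℕ → ℂ) (Y : ℕ) (M : ℝ) (hM : 0 ≤ M)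
    (h : ∀ (β : ℝ) (y : ℕ), y ≤ Y → ‖∑ n ∈ Icc 1 y, G n * ee ((n : ℝ) * β)‖ ≤ M)
    (β : ℝ) (x y : ℤ) (hy : y ≤ Y) : ‖∑ m ∈ Ioc x y, exI G m * ee ((m : ℝ) * β)‖ ≤ 2 * M := by
  -- remove the integers `≤ 0`
  have h1 : ∑ m ∈ Ioc x y, exI G m * ee ((m : ℝ) * β) = ∑ m ∈ Ioc (max x 0) y, exI G m * ee ((m : ℝ) * β) := by
    symm
    apply sum_subset
    · intro m hm
      rw [mem_Ioc] at hm ⊢
      omega
    · intro m hm hm'
      rw [mem_Ioc] at hm hm'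
      unfold exI
      rw [if_neg (by omega), zero_mul]
  rw [h1]
  by_cases hxy : max x 0 ≤ y
  · obtain ⟨a, ha⟩ : ∃ a : ℕ, (a : ℤ) = max x 0 := ⟨(max x 0).toNat, by omega⟩
    obtain ⟨b, hb⟩ : ∃ b : ℕ, (b : ℤ) = y := ⟨y.toNat, by omega⟩
    rw [← ha, ← hb] at hxy ⊢
    rw [Ioc_nat G β a b (by omega)]
    refine (norm_sub_le _ _).trans ?_
    have e1 := h β b (by omega)
    have e2 := h β a (by omega)
    linarith
  · rw [Ioc_eq_empty (by omega), sum_empty, norm_zero]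
    linarith

/-- the windows of the weight `n ↦ G (n + B)` -/
lemma LW_le (G : ℕ → ℂ) (N B : ℕ) (hB : B ≤ N) (M : ℝ) (hM : 0 ≤ M)
    (h : ∀ (β : ℝ) (y : ℕ), y ≤ 4 * N → ‖∑ n ∈ Icc 1 y, G n * ee ((n : ℝ) * β)‖ ≤ M)
    (z t : ℕ) (hz : z < 3 * N) : ‖LW N (4 * N) (fun n => exI G (n + (B : ℤ))) z t‖ ≤ 2 * M := by
  obtain ⟨β, hβ⟩ : ∃ β : ℝ, β = -((t : ℝ) / ((4 * N : ℕ) : ℝ)) := ⟨_, rfl⟩
  have h1 : LW N (4 * N) (fun n => exI G (n + (B : ℤ))) z t =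
      ee (-((B : ℝ) * β)) * ∑ m ∈ Ioc ((z : ℤ) - 2 * N + B) (z + B), exI G m * ee ((m : ℝ) * β) := by
    unfold LW
    rw [mul_sum]
    apply sum_nbij' (fun n => n + (B : ℤ)) (fun m => m - (B : ℤ))
    · intro n hn
      rw [mem_Ioc] at hn ⊢
      omega
    · intro n hn
      rw [mem_Ioc] at hn ⊢
      omega
    · intro n _
      ring
    · intro n _
      ring
    · intro n _
      have e1 : ee ((t : ℝ) * (((-1 * n : ℤ) : ℝ) / ((4 * N : ℕ) : ℝ))) =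
          ee (-((B : ℝ) * β)) * ee (((n + (B : ℤ) : ℤ) : ℝ) * β) := by
        rw [← ee_add]
        congr 1
        rw [hβ]
        push_cast
        ring
      rw [e1]
      ring
  rw [h1, norm_mul, norm_ee, one_mul]
  exact win_le G (4 * N) M hM h β _ _ (by push_cast; omega)

/-- the mean of the windows -/
lemma win_sum (G : ℕ → ℂ) (N B : ℕ) (hB : B ≤ N) (δ : ℝ) (hδ : 0 ≤ δ)
    (h : ∀ (β : ℝ) (y : ℕ), y ≤ 4 * N → ‖∑ n ∈ Icc 1 y, G n * ee ((n : ℝ) * β)‖ ≤ δ * N) (t : ℕ) :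
    ∑ z ∈ range (N + 2 * N), ‖LW N (4 * N) (fun n => exI G (n + (B : ℤ))) z t‖ ≤ 6 * δ * N * N := by
  have hN : (0 : ℝ) ≤ N := Nat.cast_nonneg _
  have h1 : ∀ z ∈ range (N + 2 * N), ‖LW N (4 * N) (fun n => exI G (n + (B : ℤ))) z t‖ ≤ 2 * (δ * N) := by
    intro z hz
    rw [mem_range] at hz
    exact LW_le G N B hB (δ * N) (by positivity) h z t (by omega)
  refine (sum_le_sum h1).trans (le_of_eq ?_)
  rw [sum_const, card_range, nsmul_eq_mul]
  push_cast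
  ring

end Pool.Agent.E8helper80.MP
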