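import Pool.Agent.E8helper80.MP.Main0
import Pool.Agent.E8helper80.MP.Win

set_option autoImplicit false

/-! Almost all shifts, long windows: the theorem over the natural numbers. -/

namespace Pool.Agent.E8helper80.MP
open Finset
open Pool.Agent.Y842.JC
open Pool.Agent.H807R2.Dav (ee)
open Pool.Agent.H373R2.T7 (exI)

lemma log_pow_le (C : ℝ) (f : ℕ) : ∃ N₀ : ℕ, ∀ N : ℕ, N₀ ≤ N → C * Real.log N ^ f ≤ N := by
  have h1 : Filter.Tendsto (fun x : ℝ => Real.log x ^ f / x) Filter.atTop (nhds 0) := by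
    have h2 := (isLittleO_log_rpow_rpow_atTop (s := 1) (f : ℝ) one_pos)
    have h3 := h2.tendsto_div_nhds_zero
    refine h3.congr' ?_
    filter_upwards with x
    rw [Real.rpow_one, Real.rpow_natCast]
  have h2 : Filter.Tendsto (fun N : ℕ => |C| * (Real.log (N : ℝ) ^ f / N)) Filter.atTop (nhds 0) := by
    have h3 := (h1.comp tendsto_natCast_atTop_atTop).const_mul |C|
    rw [mul_zero] at h3
    exact h3
  obtain ⟨N₀, h3⟩ := Filter.eventually_atTop.1 (h2.eventually_lt_const one_pos)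
  refine ⟨N₀ + 1, fun N hN => ?_⟩
  have h4 := h3 N (by omega)
  have hN0 : (0 : ℝ) < N := by exact_mod_cast (by omega : 0 < N)
  have hl : 0 ≤ Real.log (N : ℝ) := Real.log_natCast_nonneg N
  have h5 : |C| * Real.log (N : ℝ) ^ f < N := by
    rw [← mul_div_assoc, div_lt_one hN0] at h4
    exact h4
  have h6 : C * Real.log (N : ℝ) ^ f ≤ |C| * Real.log (N : ℝ) ^ f :=
    mul_le_mul_of_nonneg_right (le_abs_self C) (by positivity)
  linarith

open Classical in
/-- almost all shifts: `f` fixed and `s` moving shifts of the von Mangoldt function, and one moving shift of `G` -/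
theorem natG (G : ℕ → ℂ) (hG : ∀ n, ‖G n‖ ≤ 1) (S : Set ℕ)
    (hS : ∀ ε : ℝ, 0 < ε → ∃ N₀ : ℕ, ∀ N : ℕ, N₀ ≤ N → N ∈ S → ∀ (β : ℝ) (y : ℕ), y ≤ 4 * N →
      ‖∑ n ∈ Icc 1 y, G n * ee ((n : ℝ) * β)‖ ≤ ε * N)
    (f s : ℕ) (hf : 1 ≤ f) (D : ℕ) (ε : ℝ) (hε : 0 < ε) :
    ∃ N₀ : ℕ, ∀ N : ℕ, N₀ ≤ N → N ∈ S → ∀ a : Fin f → ℕ,
      Function.Injective a → (∀ i, a i ≤ N) → (∀ i l, a i ≤ a l + D) → ∀ B : ℕ, B ≤ N →
      ∀ b : (Fin s → ℕ) → ℕ → ℂ, (∀ x n, ‖b x n‖ ≤ 1) →
      ((((Fintype.piFinset fun _ : Fin s => Icc 1 N) ×ˢ (Icc 1 N)).filter (fun x : (Fin s → ℕ) × ℕ =>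
        ∃ X : ℕ, X ≤ N ∧ ε * N < ‖∑ n ∈ Icc 1 X, b x.1 n *
          (((∏ i, ArithmeticFunction.vonMangoldt (n + a i)) *
            ∏ j, ArithmeticFunction.vonMangoldt (n + x.1 j) : ℝ) : ℂ) * G (n + x.2 + B)‖)).card : ℝ) ≤
        ε * (N : ℝ) ^ (s + 1) := by
  set F : Finset (Fin f ⊕ Fin s) := univ.image Sum.inl with hF
  have hFc : F.card = f := by
    rw [hF, card_image_of_injective _ Sum.inl_injective, card_univ, Fintype.card_fin]
  have hFcc : (Fᶜ).card = s := by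
    rw [card_compl, hFc, Fintype.card_sum, Fintype.card_fin, Fintype.card_fin]
    omega
  have hFmem : ∀ i : Fin f, Sum.inl i ∈ F := fun i => mem_image_of_mem _ (mem_univ i)
  have hFnot : ∀ j : Fin s, Sum.inr j ∉ F := by
    intro j hj
    rw [hF, mem_image] at hj
    obtain ⟨i, _, hi⟩ := hj
    exact absurd hi (by simp)
  have hFne : F.Nonempty := ⟨Sum.inl ⟨0, hf⟩, hFmem _⟩
  have hexI : ∀ m : ℤ, ‖exI G m‖ ≤ 1 := by
    intro m
    unfold exI
    split_ifs
    · exact hG _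
    · simp
  obtain ⟨C, N₀, hmain⟩ := main0 (fun N => {Fn : ℤ → ℂ | N ∈ S ∧ ∃ B : ℕ, B ≤ N ∧ Fn = fun n => exI G (n + (B : ℤ))})
    (by
      rintro N Fn ⟨_, B, _, rfl⟩ n
      exact hexI _)
    (by
      intro δ hδ
      obtain ⟨N₂, h1⟩ := hS (δ / 6) (by positivity)
      refine ⟨N₂, fun N hN Fn hFn t => ?_⟩
      obtain ⟨hNS, B, hB, rfl⟩ := hFn
      refine (win_sum G N B hB (δ / 6) (by positivity) (h1 N hN hNS) t).trans (le_of_eq ?_)
      ring) F hFne D ε hε
  obtain ⟨N₁, hlog⟩ := log_pow_le C F.card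
  refine ⟨N₀ + N₁, fun N hN hNS a hinj haH haD B hB b hb1 => ?_⟩
  rw [hFcc] at hmain
  set a' : Fin f ⊕ Fin s → ℤ := Sum.elim (fun i => (a i : ℤ)) 0 with ha'
  set b' : (Fin f ⊕ Fin s → ℤ) → ℤ → ℂ := fun η n => b (fun j => (η (Sum.inr j)).toNat) n.toNat with hb'
  have hm := hmain N (by omega) N (hlog N (by omega)) rfl a' (by
      intro i hi
      rw [hF, mem_image] at hi
      obtain ⟨i, _, rfl⟩ := hi
      rw [ha', Sum.elim_inl, Nat.abs_cast]
      exact_mod_cast haH i) (by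
      intro i hi l hl h1
      rw [hF, mem_image] at hi hl
      obtain ⟨i, _, rfl⟩ := hi
      obtain ⟨l, _, rfl⟩ := hl
      rw [ha', Sum.elim_inl, Sum.elim_inl] at h1
      have h2 : i = l := hinj (by exact_mod_cast h1)
      rw [h2]) (by
      intro i hi l hl
      rw [hF, mem_image] at hi hl
      obtain ⟨i, _, rfl⟩ := hi
      obtain ⟨l, _, rfl⟩ := hl
      rw [ha', Sum.elim_inl, Sum.elim_inl, abs_le]
      have h1 := haD i l
      have h2 := haD l i
      omega) (fun n => exI G (n + (B : ℤ))) ⟨hNS, B, hB, rfl⟩ b' (fun η n => hb1 _ _)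
  refine le_trans ?_ hm
  apply Nat.cast_le.2
  apply card_le_card_of_injOn (fun x : (Fin s → ℕ) × ℕ => ((Sum.elim (fun i => (a i : ℤ)) (fun j => (x.1 j : ℤ)) :
    Fin f ⊕ Fin s → ℤ), x.2))
  · intro x hx
    rw [mem_coe, mem_filter, mem_product, Fintype.mem_piFinset] at hx
    obtain ⟨⟨hx1, hx2⟩, X, hXN, hX⟩ := hx
    rw [mem_coe, mem_filter, mem_product]
    refine ⟨⟨?_, hx2⟩, X, hXN, ?_⟩
    · rw [mem_Bx]
      constructor
      · intro i hi
        rw [hF, mem_image] at hi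
        obtain ⟨i, _, rfl⟩ := hi
        rfl
      · intro i hi
        rcases i with i | j
        · exact absurd (hFmem i) hi
        · have := mem_Icc.1 (hx1 j)
          simp only [Sum.elim_inr]
          omega
    · refine lt_of_lt_of_eq hX ?_
      congr 1
      symm
      apply sum_nbij' (fun n : ℤ => n.toNat) (fun n : ℕ => (n : ℤ))
      · intro n hn
        rw [mem_Ioc] at hn
        rw [mem_Icc]
        omega
      · intro n hn
        rw [mem_Icc] at hn
        rw [mem_Ioc]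
        omega
      · intro n hn
        rw [mem_Ioc] at hn
        omega
      · intro n _
        simp
      · intro n hn
        rw [mem_Ioc] at hn
        obtain ⟨m, rfl⟩ : ∃ m : ℕ, n = m := ⟨n.toNat, by omega⟩
        simp only [Int.toNat_natCast, hb', Sum.elim_inr, Fintype.prod_sum_type, Sum.elim_inl]
        congr 1
        unfold exI
        have h1 : ((m : ℤ) + (x.2 : ℤ) + (B : ℤ)) = ((m + x.2 + B : ℕ) : ℤ) := by push_cast; ring
        rw [h1, if_pos (by omega), Int.toNat_natCast]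
  · intro x _ y _ hxy
    simp only [Prod.mk.injEq] at hxy
    obtain ⟨h1, h2⟩ := hxy
    ext j
    · have h3 := congrFun h1 (Sum.inr j)
      simp only [Sum.elim_inr] at h3
      exact_mod_cast h3
    · exact h2

end Pool.Agent.E8helper80.MP
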